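import Pool.Agent.Helper16.AZ.Stmts

/-!
The unitary operator `f ↦ φ* f(· + β)` on the square integrable functions (module WOP).
-/

open Filter MeasureTheory

namespace Pool.Agent.Helper16.AZ

theorem wop_memLp {r d : ℕ} (ψ : T r → Op d) (hψ : UC ψ) (f : LL r d) :
    MemLp (fun θ => ψ θ ((f : T r → E d) θ)) 2 (mm r) := by
  have h1 : AEStronglyMeasurable (fun θ => ψ θ ((f : T r → E d) θ)) (mm r) :=
    (ContinuousLinearMap.id ℂ (Op d)).aestronglyMeasurable_comp₂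
      hψ.1.aestronglyMeasurable (Lp.aestronglyMeasurable f)
  refine (Lp.memLp f).congr_norm h1 ?_
  exact Eventually.of_forall fun θ => (unitary_norm (hψ.2 θ) _).symm

/-- multiplication by `ψ` -/
noncomputable def wopMul {r d : ℕ} (ψ : T r → Op d) (hψ : UC ψ) : LL r d →ₗᵢ[ℂ] LL r d where
  toFun f := (wop_memLp ψ hψ f).toLp _
  map_add' f g := by
    apply Lp.ext
    filter_upwards [(wop_memLp ψ hψ (f + g)).coeFn_toLp, (wop_memLp ψ hψ f).coeFn_toLp,
      (wop_memLp ψ hψ g).coeFn_toLp, Lp.coeFn_add f g,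
      Lp.coeFn_add ((wop_memLp ψ hψ f).toLp _) ((wop_memLp ψ hψ g).toLp _)] with θ h1 h2 h3 h4 h5
    rw [h1, h5, Pi.add_apply, h2, h3, h4, Pi.add_apply, map_add]
  map_smul' c f := by
    apply Lp.ext
    filter_upwards [(wop_memLp ψ hψ (c • f)).coeFn_toLp, (wop_memLp ψ hψ f).coeFn_toLp,
      Lp.coeFn_smul c f, Lp.coeFn_smul c ((wop_memLp ψ hψ f).toLp _)] with θ h1 h2 h3 h4
    rw [h1, RingHom.id_apply, h4, Pi.smul_apply, h2, h3, Pi.smul_apply, map_smul]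
  norm_map' f := by
    change ‖(wop_memLp ψ hψ f).toLp _‖ = ‖f‖
    rw [Lp.norm_def, Lp.norm_def]
    congr 1
    refine eLpNorm_congr_norm_ae ?_
    filter_upwards [(wop_memLp ψ hψ f).coeFn_toLp] with θ h1
    rw [h1, unitary_norm (hψ.2 θ)]

theorem wopMul_ae {r d : ℕ} (ψ : T r → Op d) (hψ : UC ψ) (f : LL r d) :
    ∀ᵐ θ ∂(mm r), (wopMul ψ hψ f : T r → E d) θ = ψ θ ((f : T r → E d) θ) :=
  (wop_memLp ψ hψ f).coeFn_toLp

theorem wop_mp {r : ℕ} (β : T r) : MeasurePreserving (fun θ : T r => θ + β) (mm r) (mm r) :=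
  measurePreserving_add_right (mm r) β

theorem wopStar_uc {r d : ℕ} {φ : T r → Op d} (h : UC φ) : UC fun θ => star (φ θ) :=
  ⟨(ContinuousLinearMap.adjoint : Op d ≃ₗᵢ⋆[ℂ] Op d).continuous.comp h.1,
    fun θ => unitary_star (h.2 θ)⟩

/-- translation by `β` -/
noncomputable def wopTr {r d : ℕ} (β : T r) : LL r d →ₗᵢ[ℂ] LL r d :=
  Lp.compMeasurePreservingₗᵢ ℂ (fun θ : T r => θ + β) (wop_mp β)

theorem wopTr_ae {r d : ℕ} (β : T r) (f : LL r d) :
    ∀ᵐ θ ∂(mm r), (wopTr β f : T r → E d) θ = (f : T r → E d) (θ + β) :=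
  Lp.coeFn_compMeasurePreserving f (wop_mp β)

theorem wopTr_inv {r d : ℕ} (β : T r) (f : LL r d) : wopTr β (wopTr (-β) f) = f := by
  apply Lp.ext
  filter_upwards [wopTr_ae β (wopTr (-β) f),
    (wop_mp β).quasiMeasurePreserving.ae (wopTr_ae (-β) f)] with θ h1 h2
  rw [h1, h2, add_neg_cancel_right]

theorem wopMul_inv {r d : ℕ} {φ : T r → Op d} (h : UC φ) (f : LL r d) :
    wopMul (fun θ => star (φ θ)) (wopStar_uc h) (wopMul φ h f) = f := by
  apply Lp.ext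
  filter_upwards [wopMul_ae (fun θ => star (φ θ)) (wopStar_uc h) (wopMul φ h f),
    wopMul_ae φ h f] with θ h1 h2
  rw [h1, h2]
  have h3 : star (φ θ) (φ θ ((f : T r → E d) θ)) = (star (φ θ) * φ θ) ((f : T r → E d) θ) := rfl
  rw [h3, (Unitary.mem_iff.1 (h.2 θ)).1]
  rfl

theorem st_WOP : ST_WOP := by
  intro r d β φ h
  have hs : Function.Surjective
      ((wopMul (fun θ => star (φ θ)) (wopStar_uc h)).comp (wopTr β) : LL r d →ₗᵢ[ℂ] LL r d) := by
    intro f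
    refine ⟨wopTr (-β) (wopMul φ h f), ?_⟩
    change wopMul (fun θ => star (φ θ)) (wopStar_uc h)
      (wopTr β (wopTr (-β) (wopMul φ h f))) = f
    rw [wopTr_inv, wopMul_inv]
  let e : LL r d ≃ₗᵢ[ℂ] LL r d := LinearIsometryEquiv.ofSurjective _ hs
  refine ⟨(Unitary.linearIsometryEquiv.symm e : unitary (LL r d →L[ℂ] LL r d)),
    (Unitary.linearIsometryEquiv.symm e).2, ?_⟩
  intro f
  have h0 : ((Unitary.linearIsometryEquiv.symm e : unitary (LL r d →L[ℂ] LL r d)) :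
      LL r d →L[ℂ] LL r d) f = wopMul (fun θ => star (φ θ)) (wopStar_uc h) (wopTr β f) := rfl
  rw [h0]
  filter_upwards [wopMul_ae (fun θ => star (φ θ)) (wopStar_uc h) (wopTr β f),
    wopTr_ae β f] with θ h1 h2
  rw [h1, h2]

end Pool.Agent.Helper16.AZ
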